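import Pool.Agent.U239.BL.Stm
import Pool.Agent.N852.GR.Lat

/-!
# Project BL, package MUL: the integral vectors on a line
-/

set_option autoImplicit false

namespace Pool.Agent.U688.BL

open scoped Classical
open NumberField Module Matrix
open Pool.Agent.N852.GR Pool.Agent.U239.BL

variable {F : Type} [Field F] [NumberField F] {n : ℕ}

omit [NumberField F] in
theorem co_ne {x : Fin n → 𝓞 F} (h : x ≠ 0) : co x ≠ 0 := by
  intro h1
  apply h
  funext i
  have h2 : (x i : F) = 0 := congrFun h1 i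
  exact_mod_cast h2

theorem height_le {y : Fin n → 𝓞 F} (hy : y ≠ 0) :
    Height.mulHeight (co y) ≤ ‖io y‖ ^ finrank ℚ F := by
  have hy' := co_ne hy
  have h1 := NumberField.absNorm_mul_finprod_finitePlace_eq_one (K := F) hy
  have h2 := NumberField.mulHeight_eq (K := F) hy'
  set N := (Ideal.span (Set.range y)).absNorm with hN
  have hxe : ∀ i, ((y i : 𝓞 F) : F) = co y i := fun i => rfl
  simp only [hxe] at h1
  set f := ∏ᶠ v : FinitePlace F, ⨆ i, v (co y i) with hf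
  have hN1 : (1 : ℝ) ≤ N := by
    have h3 : N ≠ 0 := by
      intro h
      rw [h, Nat.cast_zero, zero_mul] at h1
      exact zero_ne_one h1
    exact_mod_cast Nat.one_le_iff_ne_zero.2 h3
  have hf0 : 0 < f := by
    by_contra hcon
    push Not at hcon
    nlinarith
  have hf1 : f ≤ 1 := by nlinarith
  have hs0 : ∀ w : InfinitePlace F, 0 ≤ ⨆ i, w (co y i) := fun w =>
    Real.iSup_nonneg fun i => apply_nonneg _ _
  have hinf : ∏ v : InfinitePlace F, (⨆ i, v (co y i)) ^ v.mult ≤ ‖io y‖ ^ finrank ℚ F := by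
    rw [← InfinitePlace.sum_mult_eq, ← Finset.prod_pow_eq_pow_sum]
    refine Finset.prod_le_prod (fun w _ => pow_nonneg (hs0 w) _) fun w _ => ?_
    refine pow_le_pow_left₀ (hs0 w) ?_ _
    exact Real.iSup_le (fun i => lat_place_le y i w) (norm_nonneg _)
  rw [h2]
  calc _ ≤ ‖io y‖ ^ finrank ℚ F * 1 := mul_le_mul hinf hf1 hf0.le (by positivity)
    _ = _ := mul_one _

theorem line_le (Q : Projectivization F (Fin n → F)) {R : ℝ} (y : Fin n → 𝓞 F)
    (hy : y ≠ 0) (hc : ∃ c : F, co y = c • Q.rep) (hR : ‖io y‖ ≤ R) :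
    Q.mulHeight ≤ R ^ finrank ℚ F := by
  obtain ⟨c, hc⟩ := hc
  have hc0 : c ≠ 0 := by
    rintro rfl
    rw [zero_smul] at hc
    exact co_ne hy hc
  have hH : Q.mulHeight = Height.mulHeight Q.rep := by
    conv_lhs => rw [← Q.mk_rep, Projectivization.mulHeight_mk]
  have h1 : Height.mulHeight (co y) = Height.mulHeight Q.rep := by
    rw [hc]
    exact Height.mulHeight_smul_eq_mulHeight _ hc0
  rw [hH, ← h1]
  exact (height_le hy).trans (pow_le_pow_left₀ (norm_nonneg _) hR _)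

/-- the integral vectors on a line -/
def LL (Q : Projectivization F (Fin n → F)) : AddSubgroup (Fin n → 𝓞 F) where
  carrier := {y | ∃ c : F, co y = c • Q.rep}
  zero_mem' := ⟨0, by
    rw [zero_smul]
    funext i
    show ((0 : 𝓞 F) : F) = 0
    simp⟩
  add_mem' := by
    rintro a b ⟨c, hc⟩ ⟨d, hd⟩
    refine ⟨c + d, ?_⟩
    rw [add_smul, ← hc, ← hd]
    funext i
    show ((a i + b i : 𝓞 F) : F) = (a i : F) + (b i : F)
    exact map_add (algebraMap (𝓞 F) F) _ _
  neg_mem' := by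
    rintro a ⟨c, hc⟩
    refine ⟨-c, ?_⟩
    rw [neg_smul, ← hc]
    funext i
    show ((-(a i) : 𝓞 F) : F) = -(a i : F)
    exact map_neg (algebraMap (𝓞 F) F) _

/-- the real vectors on a line -/
noncomputable def lin (v : Fin n → EE F) : EE F →ₗ[ℝ] (Fin n → EE F) where
  toFun t := fun j => t * v j
  map_add' := by
    intro x y
    funext j
    simp only [Pi.add_apply, add_mul]
  map_smul' := by
    intro c x
    funext j
    simp only [Pi.smul_apply, RingHom.id_apply, smul_mul_assoc]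

theorem t_MUL (F : Type) [Field F] [NumberField F] : S_MUL F := by
  intro n
  set d := finrank ℚ F with hd
  have hd0 : 0 < d := finrank_pos
  refine ⟨6 ^ d, one_le_pow₀ (by norm_num), ?_⟩
  intro Q R hR
  refine ⟨fun y hy hc hyR => line_le Q y hy hc hyR, ?_⟩
  have hH0 : 0 < Q.mulHeight := Q.mulHeight_pos
  set H := Q.mulHeight with hH
  set ρ : ℝ := H ^ (1 / (d : ℝ)) / 2 with hρ
  have hρ0 : 0 < ρ := by positivity
  have hρd : ρ ^ d = H / 2 ^ d := by
    rw [hρ, div_pow]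
    congr 1
    rw [← Real.rpow_natCast, ← Real.rpow_mul hH0.le, one_div_mul_cancel (by positivity),
      Real.rpow_one]
  have h2d : (1 : ℝ) < 2 ^ d := one_lt_pow₀ (by norm_num) hd0.ne'
  have hlt : ρ ^ d < H := by
    rw [hρd]
    exact div_lt_self hH0 h2d
  have hsmall : ∀ x : Fin n → 𝓞 F, x ∈ LL Q → ‖io x‖ ≤ ρ → x = 0 := by
    intro x hx hxρ
    by_contra hne
    exact absurd (line_le Q x hne hx hxρ) (not_le.2 hlt)
  have hfin : ∀ B : ℝ, {x : Fin n → 𝓞 F | x ∈ LL Q ∧ ‖io x‖ ≤ B}.Finite := fun B =>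
    (lat_fin n B).subset fun x hx => hx.2
  have hsub : {y : Fin n → 𝓞 F | y ≠ 0 ∧ (∃ c : F, co y = c • Q.rep) ∧ ‖io y‖ ≤ R} ⊆
      {x : Fin n → 𝓞 F | x ∈ LL Q ∧ ‖io x‖ ≤ R} := fun y hy => ⟨hy.2.1, hy.2.2⟩
  rcases le_or_gt ρ R with hρR | hρR
  · have h1 := lat_pack (LL Q) (LinearMap.range (lin (em Q.rep))) (by
      rintro x ⟨c, hc⟩
      refine ⟨mixedEmbedding F c, ?_⟩
      funext j
      show mixedEmbedding F c * mixedEmbedding F (Q.rep j) = mixedEmbedding F (co x j)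
      rw [hc, Pi.smul_apply, smul_eq_mul, map_mul]) hρ0 hρR
    have h2 : ({x : Fin n → 𝓞 F | x ∈ LL Q ∧ ‖io x‖ ≤ ρ}.ncard : ℝ) ≤ 1 := by
      have h3 : {x : Fin n → 𝓞 F | x ∈ LL Q ∧ ‖io x‖ ≤ ρ} ⊆ {0} := fun x hx =>
        hsmall x hx.1 hx.2
      have h4 := Set.ncard_le_ncard h3 (Set.finite_singleton _)
      rw [Set.ncard_singleton] at h4
      exact_mod_cast h4
    have h5 : finrank ℝ (LinearMap.range (lin (em Q.rep))) ≤ d := by
      refine (LinearMap.finrank_range_le _).trans ?_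
      rw [hd]
      exact (mixedEmbedding.finrank F).le
    have h6 : (1 : ℝ) ≤ 3 * R / ρ := by
      rw [le_div_iff₀ hρ0]
      linarith
    have h7 : (3 * R / ρ) ^ finrank ℝ (LinearMap.range (lin (em Q.rep))) ≤ (3 * R / ρ) ^ d :=
      pow_le_pow_right₀ h6 h5
    have h8 : (3 * R / ρ) ^ d = 6 ^ d * R ^ d / H := by
      rw [div_pow, hρd, mul_pow]
      have : (6 : ℝ) ^ d = 3 ^ d * 2 ^ d := by rw [← mul_pow]; norm_num
      rw [this]
      field_simp
    have h9 : ({y : Fin n → 𝓞 F | y ≠ 0 ∧ (∃ c : F, co y = c • Q.rep) ∧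
        ‖io y‖ ≤ R}.ncard : ℝ) ≤ ({x : Fin n → 𝓞 F | x ∈ LL Q ∧ ‖io x‖ ≤ R}.ncard : ℝ) := by
      exact_mod_cast Set.ncard_le_ncard hsub (hfin R)
    calc _ ≤ _ := h9
      _ ≤ _ := h1
      _ ≤ (3 * R / ρ) ^ d * 1 := mul_le_mul h7 h2 (by positivity) (by positivity)
      _ = _ := by rw [mul_one, h8]
  · have h1 : {y : Fin n → 𝓞 F | y ≠ 0 ∧ (∃ c : F, co y = c • Q.rep) ∧ ‖io y‖ ≤ R} = ∅ := by
      rw [Set.eq_empty_iff_forall_notMem]
      rintro y ⟨hy0, hyc, hyR⟩
      exact hy0 (hsmall y hyc (hyR.trans hρR.le))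
    rw [h1, Set.ncard_empty, Nat.cast_zero]
    positivity

end Pool.Agent.U688.BL
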